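import Pool.Agent.H33.FarB.Transfer

/-!
# MP_72bcda_an: convex bodies with unique farthest points in nonseparable Hilbert spaces
-/

namespace Pool.Agent.Results.MP_72bcda_an.FarthestPointBody

/-- `a` is a farthest point of `A` from `y`: it is a point of `A` and `‖y - a‖` is the supremum of
the numbers `‖y - x‖` with `x ∈ A`. -/
def IsFarthestPoint {H : Type*} [NormedAddCommGroup H] (A : Set H) (y a : H) : Prop :=
  a ∈ A ∧ IsLUB {r : ℝ | ∃ x ∈ A, r = ‖y - x‖} ‖y - a‖

/-- Let `H` be a real or complex Hilbert space that has an orthonormal family of the cardinality of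
the continuum (such as `ℓ²(ℝ)`). Then `H` contains a bounded closed convex set `A` with more than
one point, which is moreover strictly convex with nonempty interior, such that every point of `H`
has exactly one farthest point in `A`. -/
theorem result {𝕜 : Type*} [RCLike 𝕜] {H : Type*} [NormedAddCommGroup H] [InnerProductSpace 𝕜 H]
    [CompleteSpace H] [Module ℝ H] [IsScalarTower ℝ 𝕜 H] (u : ℝ → H) (hu : Orthonormal 𝕜 u) :
    ∃ A : Set H, A.Nontrivial ∧ IsClosed A ∧ Convex ℝ A ∧ Bornology.IsBounded A ∧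
      StrictConvex ℝ A ∧ (interior A).Nonempty ∧
      ∀ y : H, ∃! a : H, IsFarthestPoint A y a := by
  obtain ⟨A, h1, h2, h3, h4, h5⟩ := FarPt.rclike_body hu
  have hst : StrictConvex ℝ A := by
    intro x hx y hy hxy a b ha hb hab
    have e1 : a • x = (algebraMap ℝ 𝕜 a) • x := (algebraMap_smul 𝕜 a x).symm
    have e2 : b • y = (algebraMap ℝ 𝕜 b) • y := (algebraMap_smul 𝕜 b y).symm
    rw [e1, e2]
    exact h4 x hx y hy hxy a b ha hb hab
  have hcv : Convex ℝ A := by
    intro x hx y hy a b ha hb hab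
    rcases eq_or_ne x y with rfl | hxy
    · rw [← add_smul, hab, one_smul]
      exact hx
    rcases eq_or_lt_of_le ha with ha0 | ha0
    · rw [← ha0, zero_add] at hab
      rw [← ha0, hab, zero_smul, one_smul, zero_add]
      exact hy
    rcases eq_or_lt_of_le hb with hb0 | hb0
    · rw [← hb0, add_zero] at hab
      rw [← hb0, hab, zero_smul, one_smul, add_zero]
      exact hx
    exact interior_subset (hst hx hy hxy ha0 hb0 hab)
  refine ⟨A, ?_, h1, hcv, ?_, hst, ?_, ?_⟩
  · refine ⟨0, h3 0 (by simp), ((algebraMap ℝ 𝕜 (1 / 2)) • u 0), h3 _ ?_, ?_⟩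
    · rw [norm_smul, hu.1 0, mul_one, norm_algebraMap', Real.norm_eq_abs, sq_abs]
      norm_num
    · intro h
      have h6 : ‖(algebraMap ℝ 𝕜 (1 / 2)) • u 0‖ = 0 := by rw [← h, norm_zero]
      rw [norm_smul, hu.1 0, mul_one, norm_algebraMap', Real.norm_eq_abs] at h6
      norm_num at h6
  · exact (Metric.isBounded_iff_subset_closedBall 0).mpr
      ⟨1, fun x hx => by rw [mem_closedBall_zero_iff]; exact h2 x hx⟩
  · refine ⟨0, ?_⟩
    rw [mem_interior]
    refine ⟨Metric.ball 0 (1 / 2), ?_, Metric.isOpen_ball, Metric.mem_ball_self (by norm_num)⟩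
    intro x hx
    rw [mem_ball_zero_iff] at hx
    apply h3
    have := norm_nonneg x
    nlinarith
  · intro y
    have key : ∀ a : H, IsFarthestPoint A y a ↔ (a ∈ A ∧ ∀ b ∈ A, dist y b ≤ dist y a) := by
      intro a
      constructor
      · rintro ⟨haA, hlub⟩
        refine ⟨haA, fun b hb => ?_⟩
        rw [dist_eq_norm, dist_eq_norm]
        exact hlub.1 ⟨b, hb, rfl⟩
      · rintro ⟨haA, hmax⟩
        refine ⟨haA, ?_, ?_⟩
        · rintro r ⟨b, hb, rfl⟩
          rw [← dist_eq_norm, ← dist_eq_norm]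
          exact hmax b hb
        · intro r hr
          exact hr ⟨a, haA, rfl⟩
    obtain ⟨a, ha, huq⟩ := h5 y
    exact ⟨a, (key a).mpr ha, fun b hb => huq b ((key b).mp hb)⟩

end Pool.Agent.Results.MP_72bcda_an.FarthestPointBody
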